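import Pool.Agent.H216R2.BB.Z

/-!
# One of `β(2) = G` (Catalan's constant) and `β(4)` is irrational

`β(s) = ∑ (-1)^j / (2 j + 1)^s` is the Dirichlet beta function; at least one of the two numbers
`G = β(2)` and `β(4)` is irrational.
-/

set_option autoImplicit false

namespace Pool.Agent.Results.MP_631c0d_nt.CatalanOrBetaFour

theorem result : Irrational (∑' j : ℕ, (-1 : ℝ) ^ j / (2 * (j : ℝ) + 1) ^ 2) ∨
    Irrational (∑' j : ℕ, (-1 : ℝ) ^ j / (2 * (j : ℝ) + 1) ^ 4) :=
  Pool.Agent.H216R2.BB.Z_final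

end Pool.Agent.Results.MP_631c0d_nt.CatalanOrBetaFour
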