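import Pool.Agent.TH900.QM.Meas

/-!
# Catalan's constant: an irrationality measure of `8 G ± 5 π² / 6`

`G = ∑ (-1)^j / (2 j + 1)²` is Catalan's constant. For both signs there is `c > 0` with
`|8 G ± 5 π²/6 - a / b| ≥ c / b ^ 586` for all integers `a` and `b ≥ 1`. In particular both numbers
are irrational and are not Liouville numbers, and `G` is none of the numbers `r ± 5 π²/48` with
rational `r`.

The numbers are `ζ(2, 1/4) - ζ(2)` and `ζ(2) - ζ(2, 3/4)`, Hurwitz zeta values.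
-/

set_option autoImplicit false

namespace Pool.Agent.Results.MP_631c0d_nt.MeasureWithPiSquared

theorem result :
    ∀ s : ℝ, s = 1 ∨ s = -1 → ∃ c : ℝ, 0 < c ∧ ∀ (a : ℤ) (b : ℕ), 0 < b →
      c / (b : ℝ) ^ 586 ≤
        |8 * (∑' j : ℕ, (-1 : ℝ) ^ j / (2 * (j : ℝ) + 1) ^ 2) + s * (5 * Real.pi ^ 2 / 6)
          - (a : ℝ) / b| :=
  fun s hs => Pool.Agent.TH900.QM.main s hs

end Pool.Agent.Results.MP_631c0d_nt.MeasureWithPiSquared
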